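import Pool.Agent.Helper89.UT

/-!
# A para-free group that is not representable by matrices over any commutative ring

`G = (F / ⋂ γ_i(F)) × U`, where `U` is the group of finitary upper unitriangular integer matrices
indexed by `ℕ` and `F` is the free group on the set `U`.
-/

namespace Pool.Agent.Results.MP_6ba1da_al.NonlinearParafree

open Pool.Agent.Helper89

universe u v

/-- The lower central factor `γ_{i+1}(G) / γ_{i+2}(G)`.  In Mathlib
`(⊤ : Subgroup G).lowerCentralSeries 0 = ⊤` is `γ_1(G) = G` and
`lowerCentralSeries (i + 1) = ⁅lowerCentralSeries i, ⊤⁆`, so `lowerCentralSeries i = γ_{i+1}(G)`. -/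
abbrev GammaFactor (G : Type u) [Group G] (i : ℕ) : Type u :=
  ↥((⊤ : Subgroup G).lowerCentralSeries i) ⧸
    ((⊤ : Subgroup G).lowerCentralSeries (i + 1)).subgroupOf
      ((⊤ : Subgroup G).lowerCentralSeries i)

/-- `G` is para-free: for one free group `F` (free on a set `X` of arbitrary size) all lower
central factors of `G` and `F` are isomorphic, and the lower central series of `G` has trivial
intersection. -/
structure ParaFree (G : Type u) [Group G] : Prop where
  factors : ∃ X : Type u, ∀ i : ℕ, Nonempty (GammaFactor G i ≃* GammaFactor (FreeGroup X) i)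
  residual : ⨅ i : ℕ, (⊤ : Subgroup G).lowerCentralSeries i = ⊥

/-- `G` is representable by matrices over a commutative ring with `1` (in the universe `v`). -/
def Representable (G : Type u) [Group G] : Prop :=
  ∃ (R : Type v) (_ : CommRing R) (n : ℕ), 1 ≤ n ∧
    ∃ f : G →* Matrix.GeneralLinearGroup (Fin n) R, Function.Injective f

/-- There is a para-free group that is not representable by matrices over any commutative
associative ring with `1`. -/
theorem result : ∃ (G : Type) (_ : Group G), ParaFree G ∧ ¬ Representable.{0, v} G := by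
  let F := FreeGroup UT
  let Q := F ⧸ gammaOmega F
  refine ⟨Q × UT, inferInstance, ⟨⟨UT, fun i => ?_⟩, ?_⟩, ?_⟩
  · obtain ⟨e1⟩ := lcFactor_prod (G := Q) (K := UT) i
    obtain ⟨e2⟩ := lcFactor_quot F i
    obtain ⟨e3⟩ := absorb_mul (lcFactor F i) (lcFactor UT i) (lcFactor_UT i)
      (lcFactorMap (FreeGroup.lift (id : UT → UT)) i)
      (lcFactorMap_surjective _ (fun x => ⟨FreeGroup.of x, by simp⟩) i)
    exact ⟨e1.trans ((e2.symm.prodCongr (MulEquiv.refl _)).trans e3)⟩
  · exact iInf_lcs_prod (iInf_lcs_quot F) iInf_lcs_UT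
  · rintro ⟨R, hR, n, -, f, hf⟩
    obtain ⟨M, hM, h⟩ := image_finite_order tt_rel (f.comp (MonoidHom.inr Q UT))
    rw [← map_pow] at h
    have h1 : MonoidHom.inr Q UT (tt 0 (2 * (n * n + 2)) ^ M) = 1 := by
      apply hf
      rw [map_one]
      exact h
    have h2 : tt 0 (2 * (n * n + 2)) ^ M = 1 := congrArg Prod.snd h1
    exact tt_infinite_order (by omega) hM h2

end Pool.Agent.Results.MP_6ba1da_al.NonlinearParafree
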